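import Pool.Agent.helper94.VD.SpecDPR

set_option autoImplicit false

open scoped ContDiff Topology InnerProductSpace ENNReal
open MeasureTheory Filter Set

namespace Pool.Agent.VD

theorem DCH_fd {d : ℕ} {E : Type} [NormedAddCommGroup E] [NormedSpace ℝ E] (f : ℝ × P d → E) (t : ℝ) (p : P d)
    (hf : DifferentiableAt ℝ f (t, p)) :
    HasFDerivAt (fun q : P d => f (t, q)) ((fderiv ℝ f (t, p)).comp (ContinuousLinearMap.inr ℝ ℝ (P d))) p := by
  have h1 : HasFDerivAt (fun q : P d => ((t, q) : ℝ × P d)) (ContinuousLinearMap.inr ℝ ℝ (P d)) p := hasFDerivAt_prodMk_right t p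
  have h2 : HasFDerivAt f (fderiv ℝ f (t, p)) ((fun q : P d => ((t, q) : ℝ × P d)) p) := hf.hasFDerivAt
  exact h2.comp p h1

theorem DCH_proof : DCH_stmt := by
  intro d C Γ _ _ K G Φ D hG
  have hdf : ∀ (γ : Γ) (q : ℝ × P d), DifferentiableAt ℝ (MM Φ γ : ℝ × P d → P d) q := fun γ q =>
    (hG.dif γ).differentiable (by simp) q
  have hid : ∀ (γ γ' : Γ) (s t : ℝ) (p : P d), MM Φ (γ' * γ) (s + t, p) = MM Φ γ' (s, MM Φ γ (t, p)) := by
    intro γ γ' s t p
    change lft (γ' * γ) (Φ (s + t) p) = lft γ' (Φ s (lft γ (Φ t p)))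
    rw [hG.lm, hG.fl.add, hG.lf]
  have h0 : ∀ p : P d, MM Φ (1 : Γ) (0, p) = p := by
    intro p
    change lft (1 : Γ) (Φ 0 p) = p
    rw [hG.l1, hG.fl.zero]
  refine ⟨fun γ γ' s t p => ⟨hid γ γ' s t p, fun v => ?_⟩, fun γ t p v hv => ?_, fun p => ⟨h0 p, fun v => ?_⟩⟩
  · have a1 := DCH_fd (MM Φ (γ' * γ)) (s + t) p (hdf _ _)
    have a2 := DCH_fd (MM Φ γ) t p (hdf _ _)
    have a3 := DCH_fd (MM Φ γ') s (MM Φ γ (t, p)) (hdf _ _)
    have a4 : HasFDerivAt (fun q : P d => MM Φ γ' (s, MM Φ γ (t, q)))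
        (((fderiv ℝ (MM Φ γ') (s, MM Φ γ (t, p))).comp (ContinuousLinearMap.inr ℝ ℝ (P d))).comp
          ((fderiv ℝ (MM Φ γ) (t, p)).comp (ContinuousLinearMap.inr ℝ ℝ (P d)))) p :=
      HasFDerivAt.comp (g := fun q : P d => MM Φ γ' (s, q)) (f := fun q : P d => MM Φ γ (t, q)) p a3 a2
    have a5 : (fun q : P d => MM Φ (γ' * γ) (s + t, q)) = fun q : P d => MM Φ γ' (s, MM Φ γ (t, q)) := by
      funext q
      exact hid γ γ' s t q
    rw [a5] at a1
    have a6 := a1.unique a4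
    have a7 := congrArg (fun A : P d →L[ℝ] P d => A v) a6
    simpa using a7
  · have a2 := DCH_fd (MM Φ γ) t p (hdf _ _)
    have b1 : HasFDerivAt (Ham G) (fderiv ℝ (Ham G) (MM Φ γ (t, p))) (MM Φ γ (t, p)) :=
      (hG.hs.differentiable (by simp) _).hasFDerivAt
    have b2 : HasFDerivAt (fun q : P d => Ham G (MM Φ γ (t, q))) ((fderiv ℝ (Ham G) (MM Φ γ (t, p))).comp
        ((fderiv ℝ (MM Φ γ) (t, p)).comp (ContinuousLinearMap.inr ℝ ℝ (P d)))) p :=
      HasFDerivAt.comp (g := Ham G) (f := fun q : P d => MM Φ γ (t, q)) p b1 a2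
    have b3 : (fun q : P d => Ham G (MM Φ γ (t, q))) = Ham G := by
      funext q
      exact (hG.hm γ t q).2
    rw [b3] at b2
    have b4 : HasFDerivAt (Ham G) (fderiv ℝ (Ham G) p) p := (hG.hs.differentiable (by simp) _).hasFDerivAt
    have b5 := b2.unique b4
    have b6 := congrArg (fun A : P d →L[ℝ] ℝ => A v) b5
    have b7 : fderiv ℝ (Ham G) (MM Φ γ (t, p)) (fderiv ℝ (MM Φ γ) (t, p) (0, v)) = fderiv ℝ (Ham G) p v := by
      simpa using b6
    rw [b7, hv]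
  · have a1 := DCH_fd (MM Φ (1 : Γ)) 0 p (hdf _ _)
    have a2 : (fun q : P d => MM Φ (1 : Γ) (0, q)) = fun q => q := by
      funext q
      exact h0 q
    rw [a2] at a1
    have a3 := a1.unique (hasFDerivAt_id p)
    have a4 := congrArg (fun A : P d →L[ℝ] P d => A v) a3
    simpa using a4

end Pool.Agent.VD
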