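import Pool.Agent.helper11.VD.SpecR

/-! # Project VD (MP_07c750_an), row FMD: the nets of all levels -/

set_option autoImplicit false

open scoped ContDiff Topology InnerProductSpace ENNReal
open MeasureTheory Filter Set

namespace Pool.Agent.VD

open Pool.Agent.RPQ (PN PJ UN upd)
open Pool.Agent.VQ (rk)
open Pool.Agent.VN (aN)

noncomputable section

/-- `exp ((n+2)(log k)²)/2^k` -/
def FMD_f (n k : ℕ) : ℝ := Real.exp ((n + 2) * (Real.log k) ^ 2) / 2 ^ k

lemma FMD_f0 (n k : ℕ) : 0 ≤ FMD_f n k := by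
  unfold FMD_f
  positivity

lemma FMD_eq (n k : ℕ) : aN k / rk k ^ n = FMD_f n k := by
  unfold aN rk FMD_f
  rw [← Real.exp_nat_mul]
  have h1 : Real.exp ((n + 2) * (Real.log k) ^ 2) = Real.exp (2 * (Real.log k) ^ 2) / Real.exp ((n : ℝ) * -(Real.log k) ^ 2) := by
    rw [← Real.exp_sub]
    congr 1
    ring
  rw [h1]
  field_simp

lemma FMD_summ (n : ℕ) : Summable (FMD_f n) := by
  obtain ⟨r, hr⟩ : ∃ r : ℝ, r = Real.exp (-(Real.log 2 / 2)) := ⟨_, rfl⟩
  have hl2 : 0 < Real.log 2 := Real.log_pos (by norm_num)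
  have hr0 : 0 ≤ r := by rw [hr]; positivity
  have hr1 : r < 1 := by
    rw [hr, Real.exp_lt_one_iff]
    linarith
  refine Summable.of_norm_bounded_eventually_nat (summable_geometric_of_lt_one hr0 hr1) ?_
  have h1 : ∀ᶠ x : ℝ in atTop, ‖Real.log x ^ 2‖ ≤ (Real.log 2 / 2 / (n + 2)) * ‖id x‖ :=
    (Real.isLittleO_pow_log_id_atTop (n := 2)).bound (by positivity)
  have h2 := tendsto_natCast_atTop_atTop.eventually h1
  filter_upwards [h2] with k hk
  rw [Real.norm_of_nonneg (FMD_f0 n k)]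
  rw [Real.norm_of_nonneg (sq_nonneg _), id, Real.norm_of_nonneg (Nat.cast_nonneg k)] at hk
  have h3 : ((n : ℝ) + 2) * Real.log k ^ 2 ≤ Real.log 2 / 2 * k := by
    have h4 : (0 : ℝ) < n + 2 := by positivity
    have h5 := mul_le_mul_of_nonneg_left hk h4.le
    calc ((n : ℝ) + 2) * Real.log k ^ 2 ≤ (n + 2) * (Real.log 2 / 2 / (n + 2) * k) := h5
      _ = Real.log 2 / 2 * k := by field_simp
  unfold FMD_f
  have h6 : (2 : ℝ) ^ k = Real.exp (Real.log 2 * k) := by
    rw [Real.exp_mul, Real.exp_log (by norm_num), Real.rpow_natCast]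
  rw [h6, hr, ← Real.exp_nat_mul, ← Real.exp_sub]
  apply Real.exp_le_exp.2
  linarith

lemma FMD_rk (ρ0 : ℝ) (h : 0 < ρ0) : ∃ K : ℕ, ∀ k : ℕ, K ≤ k → rk k ≤ ρ0 := by
  have h1 : Tendsto (fun k : ℕ => rk k) atTop (𝓝 0) := by
    have h2 : Tendsto (fun k : ℕ => Real.log (k : ℝ)) atTop atTop := Real.tendsto_log_atTop.comp tendsto_natCast_atTop_atTop
    have h3 : Tendsto (fun k : ℕ => (Real.log (k : ℝ)) ^ 2) atTop atTop := (tendsto_pow_atTop (by norm_num)).comp h2
    have h4 : Tendsto (fun k : ℕ => -(Real.log (k : ℝ)) ^ 2) atTop atBot := tendsto_neg_atTop_atBot.comp h3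
    exact Real.tendsto_exp_atBot.comp h4
  obtain ⟨K, hK⟩ := (h1.eventually_le_const h).exists_forall_of_atTop
  exact ⟨K, fun k hk => hK k hk⟩

theorem FMD_proof (hNTD : NTD_stmt) : FMD_stmt := by
  intro d Γ _ _ K hF
  obtain ⟨C, ρ0, hC, hρ0, hρ1, hnet⟩ := hNTD d Γ K hF
  obtain ⟨K1, hK1⟩ := FMD_rk ρ0 hρ0
  obtain ⟨k0, hk3, hkK⟩ : ∃ k0 : ℕ, 3 ≤ k0 ∧ K1 ≤ k0 := ⟨max 3 K1, le_max_left _ _, le_max_right _ _⟩
  have hrk0 : ∀ k, 0 < rk k := fun k => Real.exp_pos _
  have H : ∀ k : ℕ, ∃ s : (Σ J : ℕ, (Fin J → V d) × (Fin J → V d → ℝ)),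
      (k0 ≤ k → 1 ≤ s.1 ∧ NetD Γ K C (rk k) s.1 s.2.1 s.2.2) ∧ (k < k0 → s.1 = 0) := by
    intro k
    by_cases h : k0 ≤ k
    · obtain ⟨J, p, χ, hJ, hN⟩ := hnet (rk k) (hrk0 k) (hK1 k (hkK.trans h))
      exact ⟨⟨J, p, χ⟩, fun _ => ⟨hJ, hN⟩, fun h' => absurd h (not_le.2 h')⟩
    · exact ⟨⟨0, fun j => j.elim0, fun j => j.elim0⟩, fun h' => absurd h' h, fun _ => rfl⟩
  choose s hs1 hs2 using H
  refine ⟨C, k0, fun k => (s k).1, fun k => (s k).2.1, fun k => (s k).2.2, hC, ?_, fun k hk => (hs1 k hk).1⟩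
  refine { k1 := hk3, zero := hs2, net := fun k hk => (hs1 k hk).2, sum := ?_ }
  intro L hL
  have hf0 : ∀ n k, 0 ≤ C L n * FMD_f n k := fun n k => mul_nonneg (hC L n) (FMD_f0 n k)
  refine ⟨fun n k => if k0 ≤ k then C L n * FMD_f n k else 0, C L, ?_, ?_, ?_, ?_⟩
  · intro n
    refine Summable.of_nonneg_of_le (fun k => ?_) (fun k => ?_) ((FMD_summ n).mul_left (C L n))
    · show 0 ≤ (if k0 ≤ k then C L n * FMD_f n k else 0)
      split_ifs
      · exact hf0 n k
      · exact le_rfl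
    · show (if k0 ≤ k then C L n * FMD_f n k else 0) ≤ C L n * FMD_f n k
      split_ifs
      · exact le_rfl
      · exact hf0 n k
  · intro n k
    show 0 ≤ (if k0 ≤ k then C L n * FMD_f n k else 0)
    split_ifs
    · exact hf0 n k
    · exact le_rfl
  · intro n k ζ hζ x hx
    show ‖iteratedFDeriv ℝ n (lD (fun k => (s k).2.2) ζ k) x‖ ≤ (if k0 ≤ k then C L n * FMD_f n k else 0)
    by_cases h : k0 ≤ k
    · rw [if_pos h]
      have ha : 0 < aN k := by
        unfold aN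
        positivity
      have hN := (hs1 k h).2
      have h1 := hN.der L hL n (fun j => ζ (k, (j : ℕ))) (fun j => hζ _) x hx
      have h2 : lD (fun k => (s k).2.2) ζ k = aN k • (fun y => ∑ j : Fin (s k).1, ζ (k, (j : ℕ)) * (s k).2.2 j y) := by
        funext y
        rfl
      have h3 : ContDiff ℝ ∞ (fun y => ∑ j : Fin (s k).1, ζ (k, (j : ℕ)) * (s k).2.2 j y) :=
        ContDiff.sum (fun j _ => contDiff_const.mul (hN.smooth j))
      rw [h2, iteratedFDeriv_const_smul_apply (h3.contDiffAt.of_le (by exact_mod_cast le_top)), norm_smul, Real.norm_of_nonneg ha.le]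
      calc aN k * ‖iteratedFDeriv ℝ n (fun y => ∑ j : Fin (s k).1, ζ (k, (j : ℕ)) * (s k).2.2 j y) x‖
          ≤ aN k * (C L n / rk k ^ n) := mul_le_mul_of_nonneg_left h1 ha.le
        _ = C L n * FMD_f n k := by
            rw [← FMD_eq]
            ring
    · rw [if_neg h]
      have h0 : (s k).1 = 0 := hs2 k (not_le.1 h)
      have : IsEmpty (Fin (s k).1) := by
        rw [h0]
        infer_instance
      have h1 : lD (fun k => (s k).2.2) ζ k = fun _ : V d => (0 : ℝ) := by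
        funext y
        unfold lD VF
        rw [Finset.univ_eq_empty, Finset.sum_empty, mul_zero]
      rw [h1, iteratedFDeriv_fun_zero]
      simp only [Pi.zero_apply, norm_zero, le_refl]
  · intro n k
    show (if k0 ≤ k then C L n * FMD_f n k else 0) ≤ _
    have h1 : (if k0 ≤ k then C L n * FMD_f n k else 0) ≤ C L n * FMD_f n k := by
      split_ifs
      · exact le_rfl
      · exact hf0 n k
    refine h1.trans (le_of_eq ?_)
    unfold FMD_f
    ring

end

end Pool.Agent.VD
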