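import Pool.Agent.helper84.VD.SpecB5

set_option autoImplicit false

open scoped ContDiff Topology InnerProductSpace ENNReal
open MeasureTheory Filter Set

namespace Pool.Agent.VD

open Pool.Agent.VQ (CH qZ)

noncomputable section

theorem QZC_proof : QZC_stmt := by
  intro Y ι _ mu M V0 E b
  induction b with
  | zero =>
    intro Wt N c y _ hw
    have h := hw (fun _ => y) rfl
    simp only [Finset.range_zero, Finset.prod_empty, one_mul, mul_one] at h ⊢
    exact h
  | succ b ih =>
    intro Wt N c y hN hw
    have h1 : c * qZ mu M (b + 1) V0 y ≤ ∫⁻ y1, c * (M y y1 ^ 2 * qZ mu M b V0 y1) ∂mu := by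
      change c * ∫⁻ y1, M y y1 ^ 2 * qZ mu M b V0 y1 ∂mu ≤ _
      exact lintegral_const_mul_le _ _
    have h2 : ∀ y1 : Y, c * (M y y1 ^ 2 * qZ mu M b V0 y1) ≤
        ∑ k ∈ E, (Wt k * (N k 1).indicator (fun _ => (1 : ENNReal)) y1) * ∏ j ∈ Finset.range b, mu (N k (j + 1 + 1)) := by
      intro y1
      rw [← mul_assoc]
      refine ih (fun k => Wt k * (N k 1).indicator (fun _ => (1 : ENNReal)) y1) (fun k j => N k (j + 1)) (c * M y y1 ^ 2) y1
        (fun k j => hN k (j + 1)) ?_
      intro w hw0
      have h3 := hw (fun n => Nat.casesOn n y w) rfl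
      rw [Finset.prod_range_succ'] at h3
      have e1 : c * M y y1 ^ 2 * ((∏ j ∈ Finset.range b, M (w j) (w (j + 1)) ^ 2) * V0 (w b)) =
          c * ((∏ j ∈ Finset.range b, M (w j) (w (j + 1)) ^ 2) * M y (w 0) ^ 2 * V0 (w b)) := by
        rw [hw0]
        ring
      rw [e1]
      refine le_trans h3 (le_of_eq ?_)
      apply Finset.sum_congr rfl
      intro k _
      rw [Finset.prod_range_succ']
      change Wt k * ((∏ j ∈ Finset.range b, (N k (j + 1 + 1)).indicator (fun _ => (1 : ENNReal)) (w (j + 1))) *
        (N k 1).indicator (fun _ => (1 : ENNReal)) (w 0)) = _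
      rw [hw0]
      ring
    refine h1.trans ((lintegral_mono h2).trans (le_of_eq ?_))
    rw [lintegral_finsetSum]
    · apply Finset.sum_congr rfl
      intro k _
      have e2 : ∀ y1 : Y, (Wt k * (N k 1).indicator (fun _ => (1 : ENNReal)) y1) * ∏ j ∈ Finset.range b, mu (N k (j + 1 + 1)) =
          (Wt k * ∏ j ∈ Finset.range b, mu (N k (j + 1 + 1))) * (N k 1).indicator (fun _ => (1 : ENNReal)) y1 := by
        intro y1
        ring
      rw [lintegral_congr e2, lintegral_const_mul _ (measurable_const.indicator (hN k 1)), lintegral_indicator (hN k 1),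
        lintegral_const, one_mul, Measure.restrict_apply_univ, Finset.prod_range_succ']
      ring
    · intro k _
      exact ((measurable_const.indicator (hN k 1)).const_mul _).mul_const _

end

end Pool.Agent.VD
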