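import Pool.Agent.helper80.VD.SpecD

/-! # Row vd:DCT (MP_07c750_an): cut-off functions -/

set_option autoImplicit false

open scoped ContDiff Topology InnerProductSpace
open MeasureTheory Filter Set

namespace Pool.Agent.VD

theorem DCT_proof : DCT_stmt := by
  intro d K hK
  obtain ⟨R, hR⟩ := (hK.cthickening (r := 1)).isBounded.subset_closedBall (0 : V d)
  let b : ContDiffBump (0 : V d) :=
    { rIn := max R 1, rOut := max R 1 + 1, rIn_pos := lt_of_lt_of_le zero_lt_one (le_max_right _ _),
      rIn_lt_rOut := by linarith }
  refine ⟨fun x => b x, b.contDiff, b.hasCompactSupport, fun x => ⟨b.nonneg, b.le_one⟩, fun x hx => ?_⟩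
  refine b.one_of_mem_closedBall ?_
  exact Metric.closedBall_subset_closedBall (le_max_left _ _) (hR hx)

end Pool.Agent.VD
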